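import Mathlib
import Pool.Agent.L5helper14.AW.Defs

/-!
# Counting words: words avoiding a block at many places, words of small excess
-/

set_option autoImplicit false

namespace Pool.Agent.L5helper59.AW

open Pool.Agent.L5helper14.AW

lemma Cp_zero : Cp 0 = {[]} := by
  ext w
  rw [mem_Cp, Finset.mem_singleton]
  constructor
  · rintro ⟨h1, h2⟩
    rcases w with _ | ⟨c, w⟩
    · rfl
    · exfalso
      have := h1 c (by simp)
      rw [List.sum_cons] at h2
      omega
  · rintro rfl
    simp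

lemma Cp_succ (k : ℕ) :
    Cp (k + 1) = (Finset.range (k + 1)).biUnion fun i => (Cp (k - i)).image (List.cons (i + 1)) := by
  ext w
  rw [mem_Cp, Finset.mem_biUnion]
  constructor
  · rintro ⟨h1, h2⟩
    rcases w with _ | ⟨c, w⟩
    · simp at h2
    · have hc := h1 c (by simp)
      rw [List.sum_cons] at h2
      refine ⟨c - 1, Finset.mem_range.mpr (by omega), Finset.mem_image.mpr ⟨w, ?_, ?_⟩⟩
      · rw [mem_Cp]
        exact ⟨fun x hx => h1 x (by simp [hx]), by omega⟩
      · rw [show c - 1 + 1 = c by omega]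
  · rintro ⟨i, hi, hw⟩
    rw [Finset.mem_range] at hi
    obtain ⟨v, hv, rfl⟩ := Finset.mem_image.mp hw
    rw [mem_Cp] at hv
    refine ⟨fun x hx => ?_, ?_⟩
    · rcases List.mem_cons.mp hx with rfl | hx
      · omega
      · exact hv.1 x hx
    · rw [List.sum_cons, hv.2]
      omega

/-- sum over the words of weight `k + 1`, by the first letter -/
lemma sum_Cp_succ (k : ℕ) (f : List ℕ → ℝ) :
    ∑ w ∈ Cp (k + 1), f w = ∑ i ∈ Finset.range (k + 1), ∑ w ∈ Cp (k - i), f ((i + 1) :: w) := by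
  rw [Cp_succ, Finset.sum_biUnion]
  · refine Finset.sum_congr rfl fun i _ => ?_
    rw [Finset.sum_image fun a _ b _ h => (List.cons.inj h).2]
  · intro i _ j _ hij
    rw [Function.onFun, Finset.disjoint_left]
    intro w h1 h2
    obtain ⟨u, -, rfl⟩ := Finset.mem_image.mp h1
    obtain ⟨v, -, h⟩ := Finset.mem_image.mp h2
    have := (List.cons.inj h).1
    omega

lemma card_Cp_succ (k : ℕ) (P : List ℕ → Prop) [DecidablePred P] :
    (((Cp (k + 1)).filter P).card : ℝ) =
      ∑ i ∈ Finset.range (k + 1), (((Cp (k - i)).filter fun w => P ((i + 1) :: w)).card : ℝ) := by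
  simp_rw [Finset.card_filter]
  push_cast
  exact sum_Cp_succ k fun w => if P w then 1 else 0

lemma sum_two_pow (k : ℕ) : ∑ i ∈ Finset.range (k + 1), (2 : ℝ) ^ (k - i) = 2 ^ (k + 1) - 1 := by
  have h := Finset.sum_range_reflect (fun i => (2 : ℝ) ^ i) (k + 1)
  simp only [Nat.add_sub_cancel_right] at h
  have e : ∑ i ∈ Finset.range (k + 1), (2 : ℝ) ^ (k - i) = ∑ j ∈ Finset.range (k + 1), (2 : ℝ) ^ (k + 1 - 1 - j) := by
    refine Finset.sum_congr rfl fun i _ => ?_
    rw [Nat.add_sub_cancel_right]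
  rw [e]
  simp only [Nat.add_sub_cancel_right]
  rw [h, geom_sum_eq (by norm_num)]
  norm_num

theorem card_Cp_le_real (k : ℕ) : ((Cp k).card : ℝ) ≤ 2 ^ k := by
  induction k using Nat.strong_induction_on with
  | _ k ih =>
    rcases k with _ | k
    · rw [Cp_zero]
      simp
    · have h := card_Cp_succ k fun _ => True
      simp only [Finset.filter_true] at h
      rw [h]
      calc ∑ i ∈ Finset.range (k + 1), ((Cp (k - i)).card : ℝ)
          ≤ ∑ i ∈ Finset.range (k + 1), (2 : ℝ) ^ (k - i) :=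
            Finset.sum_le_sum fun i _ => ih (k - i) (by omega)
        _ ≤ 2 ^ (k + 1) := by rw [sum_two_pow]; linarith

theorem card_Cp_le (k : ℕ) : (Cp k).card ≤ 2 ^ k := by
  exact_mod_cast card_Cp_le_real k

open Classical in
/-- a condition on the word behind the place `L` -/
lemma skip (Q : List ℕ → Prop) (B : ℝ) (hB : 0 ≤ B)
    (hQ : ∀ k, (((Cp k).filter Q).card : ℝ) ≤ 2 ^ k * B) :
    ∀ (L k : ℕ), (((Cp k).filter fun w => L ≤ w.length ∧ Q (w.drop L)).card : ℝ) ≤ 2 ^ k * B := by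
  intro L
  induction L with
  | zero =>
    intro k
    simpa using hQ k
  | succ L ih =>
    intro k
    rcases k with _ | k
    · have : ((Cp 0).filter fun w => L + 1 ≤ w.length ∧ Q (w.drop (L + 1))) = ∅ := by
        rw [Cp_zero, Finset.filter_eq_empty_iff]
        intro w hw
        rw [Finset.mem_singleton] at hw
        subst hw
        simp
      rw [this]
      simpa using hB
    · rw [card_Cp_succ]
      simp only [List.length_cons, List.drop_succ_cons, Nat.add_le_add_iff_right]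
      calc ∑ i ∈ Finset.range (k + 1), (((Cp (k - i)).filter fun w => L ≤ w.length ∧ Q (w.drop L)).card : ℝ)
          ≤ ∑ i ∈ Finset.range (k + 1), (2 : ℝ) ^ (k - i) * B := Finset.sum_le_sum fun i _ => ih (k - i)
        _ = (2 ^ (k + 1) - 1) * B := by rw [← Finset.sum_mul, sum_two_pow]
        _ ≤ 2 ^ (k + 1) * B := by nlinarith

open Classical in
/-- the first block is not `X`, and a condition on the rest -/
lemma block (Q : List ℕ → Prop) (B : ℝ) (hB : 0 ≤ B)
    (hQ : ∀ k, (((Cp k).filter Q).card : ℝ) ≤ 2 ^ k * B) :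
    ∀ (X : List ℕ), (∀ x ∈ X, 1 ≤ x) → ∀ k : ℕ,
      (((Cp k).filter fun w => X.length ≤ w.length ∧ w.take X.length ≠ X ∧ Q (w.drop X.length)).card : ℝ) ≤
        2 ^ k * ((1 - (2 ^ X.sum)⁻¹) * B) := by
  intro X
  induction X with
  | nil =>
    intro _ k
    simp
  | cons c X ih =>
    intro hX k
    have hc : 1 ≤ c := hX c (by simp)
    have ih := ih fun x hx => hX x (by simp [hx])
    have hq : (0 : ℝ) ≤ 1 - (2 ^ (c :: X).sum)⁻¹ := by
      have : ((2 : ℝ) ^ (c :: X).sum)⁻¹ ≤ 1 := inv_le_one_of_one_le₀ (one_le_pow₀ (by norm_num))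
      linarith
    rcases k with _ | k
    · have : ((Cp 0).filter fun w => (c :: X).length ≤ w.length ∧ w.take (c :: X).length ≠ c :: X ∧
          Q (w.drop (c :: X).length)) = ∅ := by
        rw [Cp_zero, Finset.filter_eq_empty_iff]
        intro w hw
        rw [Finset.mem_singleton] at hw
        subst hw
        simp
      rw [this, Finset.card_empty, Nat.cast_zero, pow_zero, one_mul]
      exact mul_nonneg hq hB
    · rw [card_Cp_succ]
      simp only [List.length_cons, List.drop_succ_cons, Nat.add_le_add_iff_right, List.take_succ_cons]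
      have key : ∀ i ∈ Finset.range (k + 1),
          (((Cp (k - i)).filter fun w => X.length ≤ w.length ∧ (i + 1) :: w.take X.length ≠ c :: X ∧
            Q (w.drop X.length)).card : ℝ) ≤
            2 ^ (k - i) * B - (if i = c - 1 then 2 ^ (k - i) * (2 ^ X.sum)⁻¹ * B else 0) := by
        intro i _
        by_cases hi : i = c - 1
        · rw [if_pos hi]
          refine le_trans ?_ ((ih (k - i)).trans (le_of_eq (by ring)))
          norm_cast
          refine Finset.card_le_card fun w hw => ?_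
          rw [Finset.mem_filter] at hw ⊢
          refine ⟨hw.1, hw.2.1, fun h => hw.2.2.1 ?_, hw.2.2.2⟩
          rw [h, hi, Nat.sub_add_cancel hc]
        · rw [if_neg hi, sub_zero]
          refine le_trans ?_ (skip Q B hB hQ X.length (k - i))
          norm_cast
          refine Finset.card_le_card fun w hw => ?_
          rw [Finset.mem_filter] at hw ⊢
          exact ⟨hw.1, hw.2.1, hw.2.2.2⟩
      refine (Finset.sum_le_sum key).trans ?_
      rw [Finset.sum_sub_distrib, ← Finset.sum_mul, sum_two_pow, Finset.sum_ite_eq']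
      have hX0 : (0 : ℝ) < (2 ^ X.sum)⁻¹ := by positivity
      by_cases hck : c - 1 ∈ Finset.range (k + 1)
      · rw [if_pos hck]
        rw [Finset.mem_range] at hck
        have e : (2 : ℝ) ^ (k + 1) * (2 ^ (c :: X).sum)⁻¹ = 2 ^ (k - (c - 1)) * (2 ^ X.sum)⁻¹ := by
          rw [List.sum_cons, pow_add (2 : ℝ) c, mul_inv, ← mul_assoc]
          congr 1
          rw [show (2 : ℝ) ^ (k + 1) = 2 ^ (k - (c - 1)) * 2 ^ c by rw [← pow_add]; congr 1; omega]
          field_simp
        have : 2 ^ (k + 1) * ((1 - (2 ^ (c :: X).sum)⁻¹) * B) =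
            2 ^ (k + 1) * B - 2 ^ (k - (c - 1)) * (2 ^ X.sum)⁻¹ * B := by
          rw [← e]; ring
        rw [this]
        nlinarith
      · rw [if_neg hck, sub_zero]
        rw [Finset.mem_range] at hck
        have e : (2 : ℝ) ^ (k + 1) * (2 ^ (c :: X).sum)⁻¹ ≤ 1 := by
          rw [← div_eq_mul_inv, div_le_one (by positivity)]
          refine pow_le_pow_right₀ (by norm_num) ?_
          rw [List.sum_cons]
          omega
        nlinarith

open Classical in
lemma avoid0 (X : List ℕ) (hX : ∀ x ∈ X, 1 ≤ x) (n : ℕ) : ∀ k : ℕ,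
    (((Cp k).filter fun w => n * X.length ≤ w.length ∧
      ∀ t < n, (w.drop (t * X.length)).take X.length ≠ X).card : ℝ) ≤ 2 ^ k * (1 - (2 ^ X.sum)⁻¹) ^ n := by
  have hq : (0 : ℝ) ≤ 1 - (2 ^ X.sum)⁻¹ := by
    have : ((2 : ℝ) ^ X.sum)⁻¹ ≤ 1 := inv_le_one_of_one_le₀ (one_le_pow₀ (by norm_num))
    linarith
  induction n with
  | zero =>
    intro k
    simpa using card_Cp_le_real k
  | succ n ih =>
    intro k
    rw [pow_succ']
    refine le_trans ?_ (block (fun w => n * X.length ≤ w.length ∧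
      ∀ t < n, (w.drop (t * X.length)).take X.length ≠ X) ((1 - (2 ^ X.sum)⁻¹) ^ n) (pow_nonneg hq n)
      (fun k => by convert ih k) X hX k)
    norm_cast
    refine Finset.card_le_card fun w hw => ?_
    rw [Finset.mem_filter] at hw ⊢
    have e : (n + 1) * X.length = n * X.length + X.length := by ring
    refine ⟨hw.1, by omega, ?_, ?_, ?_⟩
    · have := hw.2.2 0 (by omega)
      simpa using this
    · rw [List.length_drop]
      omega
    · intro t ht
      have := hw.2.2 (t + 1) (by omega)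
      rw [List.drop_drop]
      have e4 : X.length + t * X.length = (t + 1) * X.length := by ring
      rw [e4]
      exact this

/-- words avoiding the block `X` at the `n` places `a + t * |X|` -/
theorem avoid (X : List ℕ) (hX : ∀ x ∈ X, 1 ≤ x) (_hX1 : X ≠ []) (a n k : ℕ) :
    (((Cp k).filter fun w => a + n * X.length ≤ w.length ∧
      ∀ t < n, (w.drop (a + t * X.length)).take X.length ≠ X).card : ℝ) ≤ 2 ^ k * (1 - (2 ^ X.sum)⁻¹) ^ n := by
  classical
  have hq : (0 : ℝ) ≤ 1 - (2 ^ X.sum)⁻¹ := by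
    have : ((2 : ℝ) ^ X.sum)⁻¹ ≤ 1 := inv_le_one_of_one_le₀ (one_le_pow₀ (by norm_num))
    linarith
  refine le_trans ?_ (skip (fun w => n * X.length ≤ w.length ∧
    ∀ t < n, (w.drop (t * X.length)).take X.length ≠ X) ((1 - (2 ^ X.sum)⁻¹) ^ n) (pow_nonneg hq n)
    (fun k => by convert avoid0 X hX n k) a k)
  norm_cast
  refine Finset.card_le_card fun w hw => ?_
  rw [Finset.mem_filter] at hw ⊢
  refine ⟨hw.1, by omega, ?_, ?_⟩
  · rw [List.length_drop]
    omega
  · intro t ht
    rw [List.drop_drop]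
    exact hw.2.2 t ht

lemma ex_cons (c : ℕ) (w : List ℕ) (hc : 1 ≤ c) (hw : ∀ x ∈ w, 1 ≤ x) : ex (c :: w) = (c - 1) + ex w := by
  have : w.length ≤ w.sum := List.length_le_sum_of_one_le w hw
  rw [ex, ex, List.sum_cons, List.length_cons]
  omega

lemma sum_three_halves (k : ℕ) :
    ∑ i ∈ Finset.range (k + 1), (3 / 2 : ℝ) ^ (k - i) ≤ 2 * (3 / 2) ^ (k + 1) := by
  induction k with
  | zero => norm_num
  | succ k ih =>
    rw [Finset.sum_range_succ']
    have e : ∑ i ∈ Finset.range (k + 1), (3 / 2 : ℝ) ^ (k + 1 - (i + 1)) =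
        ∑ i ∈ Finset.range (k + 1), (3 / 2 : ℝ) ^ (k - i) := by
      refine Finset.sum_congr rfl fun i _ => ?_
      congr 1
      omega
    rw [e, Nat.sub_zero]
    calc _ ≤ 2 * (3 / 2 : ℝ) ^ (k + 1) + (3 / 2) ^ (k + 1) := by linarith
      _ = 2 * (3 / 2) ^ (k + 1 + 1) := by rw [pow_succ (3 / 2 : ℝ) (k + 1)]; ring

lemma sum_half_three (k : ℕ) :
    ∑ i ∈ Finset.range (k + 1), (2 ^ i : ℝ)⁻¹ * (3 / 2 : ℝ) ^ (k - i) ≤ (3 / 2) ^ (k + 1) := by
  induction k with
  | zero => norm_num
  | succ k ih =>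
    rw [Finset.sum_range_succ']
    have e : ∑ i ∈ Finset.range (k + 1), (2 ^ (i + 1) : ℝ)⁻¹ * (3 / 2 : ℝ) ^ (k + 1 - (i + 1)) =
        2⁻¹ * ∑ i ∈ Finset.range (k + 1), (2 ^ i : ℝ)⁻¹ * (3 / 2 : ℝ) ^ (k - i) := by
      rw [Finset.mul_sum]
      refine Finset.sum_congr rfl fun i _ => ?_
      rw [show k + 1 - (i + 1) = k - i by omega, pow_succ, mul_inv]
      ring
    rw [e, Nat.sub_zero, pow_zero, inv_one, one_mul, pow_succ (3 / 2 : ℝ) (k + 1)]
    linarith

/-- the generating sum of the excess behind the place `J` -/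
lemma sum_ex (J : ℕ) : ∀ k : ℕ, ∑ w ∈ Cp k, ((2 : ℝ) ^ ex (w.drop J))⁻¹ ≤ 2 ^ J * (3 / 2) ^ k := by
  induction J with
  | zero =>
    intro k
    induction k using Nat.strong_induction_on with
    | _ k ih =>
      rcases k with _ | k
      · rw [Cp_zero]
        simp [ex]
      · rw [sum_Cp_succ]
        simp only [List.drop_zero, pow_zero, one_mul] at ih ⊢
        calc ∑ i ∈ Finset.range (k + 1), ∑ w ∈ Cp (k - i), ((2 : ℝ) ^ ex ((i + 1) :: w))⁻¹
            = ∑ i ∈ Finset.range (k + 1), (2 ^ i : ℝ)⁻¹ * ∑ w ∈ Cp (k - i), ((2 : ℝ) ^ ex w)⁻¹ := by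
              refine Finset.sum_congr rfl fun i _ => ?_
              rw [Finset.mul_sum]
              refine Finset.sum_congr rfl fun w hw => ?_
              rw [ex_cons (i + 1) w (by omega) ((mem_Cp _ w).mp hw).1, Nat.add_sub_cancel_right, pow_add, mul_inv]
          _ ≤ ∑ i ∈ Finset.range (k + 1), (2 ^ i : ℝ)⁻¹ * (3 / 2 : ℝ) ^ (k - i) := by
              refine Finset.sum_le_sum fun i _ => ?_
              exact mul_le_mul_of_nonneg_left (ih (k - i) (by omega)) (by positivity)
          _ ≤ (3 / 2) ^ (k + 1) := sum_half_three k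
  | succ J ihJ =>
    intro k
    rcases k with _ | k
    · rw [Cp_zero]
      simp only [Finset.sum_singleton, List.drop_nil, ex, List.sum_nil, List.length_nil, Nat.sub_zero, pow_zero,
        inv_one, mul_one]
      exact one_le_pow₀ (by norm_num)
    · rw [sum_Cp_succ]
      simp only [List.drop_succ_cons]
      calc ∑ i ∈ Finset.range (k + 1), ∑ w ∈ Cp (k - i), ((2 : ℝ) ^ ex (w.drop J))⁻¹
          ≤ ∑ i ∈ Finset.range (k + 1), 2 ^ J * (3 / 2 : ℝ) ^ (k - i) := Finset.sum_le_sum fun i _ => ihJ (k - i)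
        _ = 2 ^ J * ∑ i ∈ Finset.range (k + 1), (3 / 2 : ℝ) ^ (k - i) := by rw [Finset.mul_sum]
        _ ≤ 2 ^ J * (2 * (3 / 2) ^ (k + 1)) := by
            exact mul_le_mul_of_nonneg_left (sum_three_halves k) (by positivity)
        _ = 2 ^ (J + 1) * (3 / 2) ^ (k + 1) := by rw [pow_succ (2 : ℝ) J]; ring

theorem small_excess (J m k : ℕ) :
    (((Cp k).filter fun w => ex (w.drop J) ≤ m).card : ℝ) ≤ 2 ^ (J + m) * (3 / 2) ^ k := by
  have h : (((Cp k).filter fun w => ex (w.drop J) ≤ m).card : ℝ) ≤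
      2 ^ m * ∑ w ∈ Cp k, ((2 : ℝ) ^ ex (w.drop J))⁻¹ := by
    rw [Finset.card_eq_sum_ones, Finset.mul_sum]
    push_cast
    refine le_trans ?_ (Finset.sum_le_sum_of_subset_of_nonneg (Finset.filter_subset (fun w => ex (w.drop J) ≤ m) (Cp k))
      fun w _ _ => by positivity)
    refine Finset.sum_le_sum fun w hw => ?_
    rw [Finset.mem_filter] at hw
    rw [← div_eq_mul_inv, one_le_div (by positivity)]
    exact pow_le_pow_right₀ (by norm_num) hw.2
  refine h.trans ?_
  calc (2 : ℝ) ^ m * ∑ w ∈ Cp k, ((2 : ℝ) ^ ex (w.drop J))⁻¹ ≤ 2 ^ m * (2 ^ J * (3 / 2) ^ k) :=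
        mul_le_mul_of_nonneg_left (sum_ex J k) (by positivity)
    _ = 2 ^ (J + m) * (3 / 2) ^ k := by rw [pow_add]; ring

end Pool.Agent.L5helper59.AW
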